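import Pool.Agent.Helper13.FinalShort

/-!
# MP_430249_ag, Q1: there is no linear vanishing bound

For every field `k` there are a polynomial ring `R = k[x_0, …, x_{d-1}]`, an index `i` and a homogeneous
ideal `I` of `R` such that `H^i_𝔪(R/I^n)` has finite length for every `n ≥ 1`, but for every integer `α`
one has, for all large `n`, `H^i_𝔪(R/I^n)_j ≠ 0` for some `j < -α n`.

Local cohomology is computed by the Čech complex on the variables (`Pool.Agent.Helper13.LCShort`).

The proof gives `d = 18`, `i = 7` and `H^7_𝔪(R/I^n)_j ≠ 0` for `j = 12 n - 4 - 2 n^2`, `n ≥ 3`.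
-/

namespace Pool.Agent.Results.MP_430249_ag.NoLinearBound

open Pool.Agent.Helper13.LC

attribute [local instance] MvPolynomial.gradedAlgebra

theorem result (k : Type*) [Field k] : ∃ (d i : ℕ) (I : Ideal (MvPolynomial (Fin d) k)),
    I.IsHomogeneous (MvPolynomial.homogeneousSubmodule (Fin d) k) ∧
    (∀ n : ℕ, 1 ≤ n → IsFiniteLength (MvPolynomial (Fin d) k) (LocalCohomology (I ^ n) i)) ∧
    ∀ α : ℤ, ∃ N : ℕ, ∀ n : ℕ, N ≤ n → ∃ j : ℤ, j < - α * n ∧
      ∃ ξ : LocalCohomology (I ^ n) i, InDegree (I ^ n) i j ξ ∧ ξ ≠ 0 :=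
  final' k

end Pool.Agent.Results.MP_430249_ag.NoLinearBound
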